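import Pool.Agent.H42.Lev1

open Cardinal Pool.Agent.H42.ZF Pool.Agent.H42.PolD

/-- For regular `κ` above `ℵ₁`, below the splitting number and at most the reaping number, the
positive relation holds at `κ` and fails after the Levy collapse of the continuum to `κ`. -/
theorem Pool.Agent.Results.MP_6efb98_lc.Yes.result (κ : Cardinal.{0}) (hκ : κ.IsRegular)
    (h1 : ℵ₁ < κ) (hs : κ < splitNum) (hr : κ ≤ reapNum) :
    κ < 𝔠 ∧ Pol κ ∧ ∀ U : Ult (Levy κ 𝔠),
      ZFC (E U) ∧ ∀ w, IsOmega (E U) w → ¬PolM (E U) (mk U (cardN κ)) w :=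
  ⟨(pol_of_lt hκ (aleph0_lt_aleph_one.trans h1) hs).1,
    (pol_of_lt hκ (aleph0_lt_aleph_one.trans h1) hs).2, fun U =>
    ⟨M_zfc U, fun _ hw => hw.eq ▸ levy hκ (aleph0_lt_aleph_one.trans h1) hr U⟩⟩
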